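import Pool.Agent.H52.HMS.LBase

/-!
# HMS, module LFLT: the last coordinate
-/

set_option autoImplicit false

namespace Pool.HMS

open Finset

namespace Lflt

/-- The matrices of a unimodular pair are inverse to each other in the other order, too. -/
theorem inv' {D : ℕ} {U W : Mat} (h : Unimod D U W) :
    ∀ c < D, ∀ c' < D, ∑ j ∈ range D, ent W j c * ent U j c' = if c = c' then 1 else 0 := by
  let A : Matrix (Fin D) (Fin D) ℚ := Matrix.of fun i c => ent U i c
  let M : Matrix (Fin D) (Fin D) ℚ := Matrix.of fun c j => ent W j c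
  have h1 : A * M = 1 := by
    ext i j
    rw [Matrix.mul_apply, Matrix.one_apply]
    have := h.inv i i.2 j j.2
    rw [Finset.sum_range] at this
    simp only [A, M, Matrix.of_apply, this, Fin.ext_iff]
  have h2 : M * A = 1 := mul_eq_one_comm.1 h1
  intro c hc c' hc'
  have h3 := congrFun (congrFun h2 ⟨c, hc⟩) ⟨c', hc'⟩
  rw [Matrix.mul_apply, Matrix.one_apply] at h3
  simp only [A, M, Matrix.of_apply, Fin.mk.injEq] at h3
  rw [Finset.sum_range]
  exact h3

end Lflt

theorem lflt_thm : S_LFLT := by
  intro D m B U W L r hD hU hL x hx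
  set y : ℕ → ℚ := fun j => ∑ c ∈ range D, ent W j c * x c with hy
  have hxc : ∀ c < D, ∑ j ∈ range D, y j * ent U j c = x c := by
    intro c hc
    have h1 : ∀ j ∈ range D, y j * ent U j c = ∑ c' ∈ range D, x c' * (ent W j c' * ent U j c) := by
      intro j _
      rw [hy]
      simp only
      rw [Finset.sum_mul]
      exact Finset.sum_congr rfl fun c' _ => by ring
    rw [Finset.sum_congr rfl h1, Finset.sum_comm]
    have h2 : ∀ c' ∈ range D, ∑ j ∈ range D, x c' * (ent W j c' * ent U j c) =
        if c' = c then x c' else 0 := by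
      intro c' hc'
      rw [← Finset.mul_sum, Lflt.inv' hU c' (Finset.mem_range.1 hc') c hc]
      split_ifs <;> simp
    rw [Finset.sum_congr rfl h2, Finset.sum_ite_eq' (range D) c x, if_pos (Finset.mem_range.2 hc)]
  have hB : ∀ k, ∑ c ∈ range D, x c * ent B c k = ∑ j ∈ range D, y j * bas D B U j k := by
    intro k
    have h1 : ∀ c ∈ range D, x c * ent B c k = ∑ j ∈ range D, y j * (ent U j c * ent B c k) := by
      intro c hc
      rw [← hxc c (Finset.mem_range.1 hc), Finset.sum_mul]
      exact Finset.sum_congr rfl fun j _ => by ring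
    rw [Finset.sum_congr rfl h1, Finset.sum_comm]
    apply Finset.sum_congr rfl
    intro j _
    unfold bas
    rw [Finset.mul_sum]
  have hR : ∑ k ∈ range m, (∑ c ∈ range D, x c * ent B c k) ^ 2 =
      ∑ l ∈ range D, r l * (∑ j ∈ range D, y j * L j l) ^ 2 := by
    have h1 : ∀ k ∈ range m, (∑ c ∈ range D, x c * ent B c k) ^ 2 =
        ∑ j ∈ range D, ∑ j' ∈ range D, y j * y j' * (bas D B U j k * bas D B U j' k) := by
      intro k _
      rw [hB, pow_two, Finset.sum_mul_sum]
      exact Finset.sum_congr rfl fun j _ => Finset.sum_congr rfl fun j' _ => by ring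
    have h2 : ∀ l ∈ range D, r l * (∑ j ∈ range D, y j * L j l) ^ 2 =
        ∑ j ∈ range D, ∑ j' ∈ range D, y j * y j' * (L j l * r l * L j' l) := by
      intro l _
      rw [pow_two, Finset.sum_mul_sum, Finset.mul_sum]
      apply Finset.sum_congr rfl
      intro j _
      rw [Finset.mul_sum]
      exact Finset.sum_congr rfl fun j' _ => by ring
    rw [Finset.sum_congr rfl h1, Finset.sum_congr rfl h2, Finset.sum_comm]
    rw [Finset.sum_comm (s := range D) (t := range D) (f := fun l j =>
      ∑ j' ∈ range D, y j * y j' * (L j l * r l * L j' l))]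
    apply Finset.sum_congr rfl
    intro j hj
    rw [Finset.sum_comm, Finset.sum_comm (s := range D) (t := range D) (f := fun l j' =>
      y j * y j' * (L j l * r l * L j' l))]
    apply Finset.sum_congr rfl
    intro j' hj'
    rw [← Finset.mul_sum, ← Finset.mul_sum]
    congr 1
    exact hL.eq j (Finset.mem_range.1 hj) j' (Finset.mem_range.1 hj')
  rw [hR]
  have hlast : ∑ j ∈ range D, y j * L j (D - 1) = y (D - 1) := by
    rw [Finset.sum_eq_single (D - 1)]
    · rw [hL.one (D - 1) (by omega), mul_one]
    · intro j hj hne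
      have hjD := Finset.mem_range.1 hj
      rw [hL.tri j hjD (D - 1) (by omega) (by omega), mul_zero]
    · intro h
      exact absurd (Finset.mem_range.2 (by omega)) h
  have h3 : r (D - 1) * y (D - 1) ^ 2 =
      r (D - 1) * (∑ j ∈ range D, y j * L j (D - 1)) ^ 2 := by rw [hlast]
  show r (D - 1) * y (D - 1) ^ 2 ≤ _
  rw [h3]
  exact Finset.single_le_sum (f := fun l => r l * (∑ j ∈ range D, y j * L j l) ^ 2)
    (fun l hl => mul_nonneg (hL.pos l (Finset.mem_range.1 hl)).le (sq_nonneg _))
    (Finset.mem_range.2 (by omega))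

end Pool.HMS
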