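import Pool.Agent.H48.HMS.Stm

/-!
# HMS, module QSZ: sizes of rationals
-/

set_option autoImplicit false

namespace Pool.HMS

open Finset

namespace Qsz

theorem qb_le {q : ℚ} {n : ℕ} (h1 : q.num.natAbs < 2 ^ n) (h2 : q.den < 2 ^ n) : qb q ≤ n :=
  max_le (Nat.size_le.2 h1) (Nat.size_le.2 h2)

theorem num_lt (q : ℚ) : q.num.natAbs < 2 ^ qb q := Nat.size_le.1 (le_max_left _ _)

theorem den_lt (q : ℚ) : q.den < 2 ^ qb q := Nat.size_le.1 (le_max_right _ _)

/-- A fraction with small numerator and denominator. -/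
theorem frac {a : ℤ} {b : ℕ} (hb : b ≠ 0) {q : ℚ} (hq : q = (a : ℚ) / (b : ℚ)) :
    q.num.natAbs ≤ a.natAbs ∧ q.den ≤ b := by
  have hq' : q = (a : ℚ) / ((b : ℤ) : ℚ) := by rw [hq]; push_cast; rfl
  have hb' : (b : ℤ) ≠ 0 := by exact_mod_cast hb
  constructor
  · by_cases ha : a = 0
    · subst ha
      have : q = 0 := by rw [hq]; simp
      rw [this]
      simp
    · have h1 : q.num ∣ a := by
        rw [hq', ← Rat.divInt_eq_div]
        exact Rat.num_dvd a hb'
      exact Nat.le_of_dvd (Int.natAbs_pos.2 ha) (Int.natAbs_dvd_natAbs.2 h1)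
  · have h1 : (q.den : ℤ) ∣ (b : ℤ) := by
      rw [hq', ← Rat.divInt_eq_div]
      exact Rat.den_dvd a b
    exact Nat.le_of_dvd (Nat.pos_of_ne_zero hb) (by exact_mod_cast h1)

theorem add (p q : ℚ) : qb (p + q) ≤ qb p + qb q + 1 := by
  have hpq : p + q = ((p.num * q.den + q.num * p.den : ℤ) : ℚ) / ((p.den * q.den : ℕ) : ℚ) := by
    have hp := p.num_div_den
    have hq := q.num_div_den
    have hp0 : (p.den : ℚ) ≠ 0 := by exact_mod_cast p.den_nz
    have hq0 : (q.den : ℚ) ≠ 0 := by exact_mod_cast q.den_nz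
    conv_lhs => rw [← hp, ← hq]
    push_cast
    rw [div_add_div _ _ hp0 hq0]
    ring
  obtain ⟨h1, h2⟩ := frac (Nat.mul_ne_zero p.den_nz q.den_nz) hpq
  have a1 := num_lt p
  have a2 := den_lt p
  have b1 := num_lt q
  have b2 := den_lt q
  have e : 2 ^ (qb p + qb q + 1) = 2 ^ qb p * 2 ^ qb q + 2 ^ qb p * 2 ^ qb q := by
    rw [pow_succ, pow_add]; ring
  apply qb_le
  · refine h1.trans_lt ?_
    have h3 : (p.num * q.den + q.num * p.den).natAbs ≤ p.num.natAbs * q.den + q.num.natAbs * p.den := by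
      refine (Int.natAbs_add_le _ _).trans ?_
      rw [Int.natAbs_mul, Int.natAbs_mul, Int.natAbs_natCast, Int.natAbs_natCast]
    refine h3.trans_lt ?_
    rw [e]
    have h4 : p.num.natAbs * q.den < 2 ^ qb p * 2 ^ qb q :=
      Nat.mul_lt_mul_of_lt_of_le a1 b2.le (by positivity)
    have h5 : q.num.natAbs * p.den < 2 ^ qb q * 2 ^ qb p :=
      Nat.mul_lt_mul_of_lt_of_le b1 a2.le (by positivity)
    rw [mul_comm (2 ^ qb q)] at h5
    omega
  · refine h2.trans_lt ?_
    rw [e]
    have h4 : p.den * q.den < 2 ^ qb p * 2 ^ qb q :=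
      Nat.mul_lt_mul_of_lt_of_le a2 b2.le (by positivity)
    omega

theorem mul (p q : ℚ) : qb (p * q) ≤ qb p + qb q := by
  have hpq : p * q = ((p.num * q.num : ℤ) : ℚ) / ((p.den * q.den : ℕ) : ℚ) := by
    have hp := p.num_div_den
    have hq := q.num_div_den
    conv_lhs => rw [← hp, ← hq]
    push_cast
    rw [div_mul_div_comm]
  obtain ⟨h1, h2⟩ := frac (Nat.mul_ne_zero p.den_nz q.den_nz) hpq
  have a1 := num_lt p
  have a2 := den_lt p
  have b1 := num_lt q
  have b2 := den_lt q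
  apply qb_le
  · refine h1.trans_lt ?_
    rw [Int.natAbs_mul, pow_add]
    exact Nat.mul_lt_mul_of_lt_of_le a1 b1.le (by positivity)
  · refine h2.trans_lt ?_
    rw [pow_add]
    exact Nat.mul_lt_mul_of_lt_of_le a2 b2.le (by positivity)

theorem neg (p : ℚ) : qb (-p) = qb p := by
  unfold qb
  rw [Rat.num_neg_eq_neg_num, Rat.den_neg_eq_den, Int.natAbs_neg]

theorem inv (p : ℚ) : qb p⁻¹ ≤ qb p := by
  by_cases hp : p = 0
  · rw [hp, inv_zero]
  · have hn : p.num ≠ 0 := Rat.num_ne_zero.2 hp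
    have h : p⁻¹ = ((Int.sign p.num * p.den : ℤ) : ℚ) / ((p.num.natAbs : ℕ) : ℚ) := by
      have h1 : (p.num : ℚ) = (Int.sign p.num : ℚ) * (p.num.natAbs : ℚ) := by
        have := congrArg (fun z : ℤ => (z : ℚ)) (Int.sign_mul_natAbs p.num)
        simp only [Int.cast_mul, Int.cast_natCast] at this
        exact this.symm
      have h2 : (Int.sign p.num : ℚ) * (Int.sign p.num : ℚ) = 1 := by
        have : Int.sign p.num * Int.sign p.num = 1 := by
          rcases lt_or_gt_of_ne hn with h | h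
          · rw [Int.sign_eq_neg_one_of_neg h]; rfl
          · rw [Int.sign_eq_one_of_pos h]; rfl
        exact_mod_cast this
      have h3 : (p.num.natAbs : ℚ) ≠ 0 := by
        have := Int.natAbs_ne_zero.2 hn
        exact_mod_cast this
      have h4 : (p.den : ℚ) ≠ 0 := by exact_mod_cast p.den_nz
      have h5 : p * ((Int.sign p.num * p.den : ℤ) : ℚ) = (p.num.natAbs : ℚ) := by
        push_cast
        have h6 : p * (p.den : ℚ) = p.num := Rat.mul_den_eq_num p
        calc p * ((Int.sign p.num : ℚ) * (p.den : ℚ)) = (Int.sign p.num : ℚ) * (p * p.den) := by ring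
          _ = (Int.sign p.num : ℚ) * ((Int.sign p.num : ℚ) * (p.num.natAbs : ℚ)) := by rw [h6, ← h1]
          _ = ((Int.sign p.num : ℚ) * (Int.sign p.num : ℚ)) * (p.num.natAbs : ℚ) := by ring
          _ = _ := by rw [h2, one_mul]
      rw [eq_div_iff h3, ← h5, ← mul_assoc, inv_mul_cancel₀ hp, one_mul]
    obtain ⟨h1, h2⟩ := frac (Int.natAbs_ne_zero.2 hn) h
    apply qb_le
    · refine h1.trans_lt ?_
      rw [Int.natAbs_mul, Int.natAbs_natCast]
      have : (Int.sign p.num).natAbs = 1 := Int.natAbs_sign_of_ne_zero hn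
      rw [this, one_mul]
      exact den_lt p
    · exact h2.trans_lt (num_lt p)

theorem num_le (p : ℚ) : (p.num.natAbs : ℚ) = |p| * p.den := by
  have h6 : p * (p.den : ℚ) = p.num := Rat.mul_den_eq_num p
  have h7 : |p| * (p.den : ℚ) = |(p.num : ℚ)| := by
    rw [← h6, abs_mul, Nat.abs_cast]
  rw [h7, Nat.cast_natAbs, Int.cast_abs]

theorem den (p : ℚ) (m n : ℕ) (h1 : |p| ≤ 2 ^ m) (h2 : p.den ≤ 2 ^ n) : qb p ≤ m + n + 1 := by
  have h3 : p.num.natAbs ≤ 2 ^ (m + n) := by
    have h4 := num_le p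
    have h5 : (p.den : ℚ) ≤ 2 ^ n := by exact_mod_cast h2
    have h6 : (p.num.natAbs : ℚ) ≤ 2 ^ (m + n) := by
      rw [h4, pow_add]
      exact mul_le_mul h1 h5 (by positivity) (by positivity)
    exact_mod_cast h6
  apply qb_le
  · rw [pow_succ]
    have : 0 < 2 ^ (m + n) := by positivity
    omega
  · have h4 : 2 ^ n ≤ 2 ^ (m + n) := Nat.pow_le_pow_right (by norm_num) (by omega)
    rw [pow_succ]
    have : 0 < 2 ^ (m + n) := by positivity
    omega

theorem abs_le (p : ℚ) : |p| ≤ 2 ^ qb p := by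
  have h1 := num_le p
  have h2 : (1 : ℚ) ≤ p.den := by exact_mod_cast p.den_pos
  have h3 : |p| ≤ p.num.natAbs := by
    rw [h1]
    exact le_mul_of_one_le_right (abs_nonneg p) h2
  have h4 : (p.num.natAbs : ℚ) ≤ 2 ^ qb p := by exact_mod_cast (num_lt p).le
  exact h3.trans h4

theorem int (z : ℤ) (n : ℕ) (h : |z| ≤ 2 ^ n) : qb z ≤ n + 1 := by
  have h1 : z.natAbs ≤ 2 ^ n := by
    have : (z.natAbs : ℤ) ≤ 2 ^ n := by rw [Int.natCast_natAbs]; exact h
    exact_mod_cast this
  have h2 : 0 < 2 ^ n := by positivity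
  apply qb_le
  · rw [Rat.num_intCast, pow_succ]
    omega
  · rw [Rat.den_intCast, pow_succ]
    omega

theorem zero : qb 0 = 1 := by simp [qb]

theorem one : qb 1 = 1 := by simp [qb]

theorem sum (l : List ℚ) : qb l.sum ≤ (l.map fun q => qb q + 1).sum + 1 := by
  induction l with
  | nil => simp [zero]
  | cons a l ih =>
    rw [List.sum_cons, List.map_cons, List.sum_cons]
    have := add a l.sum
    omega

theorem prod (l : List ℚ) : qb l.prod ≤ (l.map qb).sum + 1 := by
  induction l with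
  | nil => simp [one]
  | cons a l ih =>
    rw [List.prod_cons, List.map_cons, List.sum_cons]
    have := mul a l.prod
    omega

theorem pow (q : ℚ) (n : ℕ) : qb (q ^ n) ≤ n * qb q + 1 := by
  induction n with
  | zero => simp [one]
  | succ n ih =>
    rw [pow_succ, Nat.add_mul, Nat.one_mul]
    have := mul (q ^ n) q
    omega

theorem finsum (n : ℕ) (f : ℕ → ℚ) :
    qb (∑ i ∈ range n, f i) ≤ ∑ i ∈ range n, (qb (f i) + 1) + 1 := by
  induction n with
  | zero => simp [zero]
  | succ n ih =>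
    rw [Finset.sum_range_succ, Finset.sum_range_succ]
    have := add (∑ i ∈ range n, f i) (f n)
    omega

end Qsz

theorem qsz_thm : S_QSZ where
  add := Qsz.add
  mul := Qsz.mul
  neg := Qsz.neg
  inv := Qsz.inv
  den := Qsz.den
  abs := Qsz.abs_le
  int := Qsz.int
  sum := Qsz.sum
  prod := Qsz.prod
  pow := Qsz.pow
  finsum := Qsz.finsum

end Pool.HMS
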