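import Pool.Agent.H52.HMS.LBase
import Pool.Agent.H52.HMS.PLib

/-!
# HMS box 1 (LLL): the elimination is polynomial time
-/

set_option autoImplicit false
set_option maxHeartbeats 4000000

namespace Pool.HMS

open TMLib Finset Polynomial

theorem lpt1_thm (h : S_LCLP) : S_LPT1 := by
  constructor
  · have h1 : PTime (fun p : (ℕ × Mat × ℕ) × (ℕ × Mat) => schStep p.1.1 p.2) := by
      unfold schStep
      fun_prop
    have h2 : PTime (fun p : ℕ × Mat × ℕ => kS p.1 p.2.1) := by
      unfold kS
      fun_prop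
    have h3 := h.1 (ℕ × Mat × ℕ) (ℕ × Mat) (fun a b => schStep a.1 b) (fun a => (0, a.2.1))
      (fun a => a.2.2) (fun a => kS a.1 a.2.1) (0, []) h1 (by fun_prop) (by fun_prop) h2
    exact PTime.snd h3
  · unfold grA gr bas
    fun_prop

end Pool.HMS
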