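import Pool.Agent.H91.HMS.RLib

/-!
# HMS, module RGROW: growth bounds
-/

set_option autoImplicit false

namespace Pool.HMS

open Finset

namespace Rgrow

theorem two_pow_size_le {N : ℕ} (hN : 2 ≤ N) : 2 ^ N.size ≤ N ^ 2 := by
  have h1 : 0 < N.size := Nat.size_pos.2 (by omega)
  have h2 : 2 ^ (N.size - 1) ≤ N := Nat.lt_size.1 (by omega)
  have h3 : 2 ^ N.size = 2 ^ (N.size - 1) * 2 := by
    rw [← pow_succ]; congr 1; omega
  rw [h3, pow_two]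
  exact Nat.mul_le_mul h2 hN

theorem pow2 {N : ℕ} (hN : 2 ≤ N) (a : ℕ) : 2 ^ a ≤ N ^ a := Nat.pow_le_pow_left hN a

/-- The bound on `X`. -/
theorem bound_X {N D : ℕ} (hN : 2 ≤ N) (hD : 1 ≤ D) :
    (2 * D + 1) * (N + 1) * (20 * D ^ 3 + 4) ^ (16 * D ^ 3 * (D + N.size)) ≤
      N ^ (400 * (D + 1) ^ 5) := by
  have hD2 : D < 2 ^ D := Nat.lt_two_pow_self
  have a1 : 2 * D + 1 ≤ N ^ (D + 1) := by
    have : 2 * D + 1 ≤ 2 ^ (D + 1) := by rw [pow_succ]; omega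
    exact this.trans (pow2 hN _)
  have a2 : N + 1 ≤ N ^ 2 := by nlinarith
  have a3 : 20 * D ^ 3 + 4 ≤ 2 ^ (8 * D) := by
    have h1 : D ^ 3 ≤ (2 ^ D) ^ 3 := Nat.pow_le_pow_left hD2.le 3
    have h2 : 1 ≤ (2 ^ D) ^ 3 := Nat.one_le_pow _ _ (by positivity)
    have h3 : 20 * D ^ 3 + 4 ≤ 2 ^ 5 * (2 ^ D) ^ 3 := by omega
    refine h3.trans ?_
    rw [← pow_mul, ← pow_add]
    exact Nat.pow_le_pow_right (by norm_num) (by omega)
  have a4 : (20 * D ^ 3 + 4) ^ (16 * D ^ 3 * (D + N.size)) ≤ N ^ (128 * D ^ 5 + 256 * D ^ 4) := by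
    calc (20 * D ^ 3 + 4) ^ (16 * D ^ 3 * (D + N.size))
        ≤ (2 ^ (8 * D)) ^ (16 * D ^ 3 * (D + N.size)) := Nat.pow_le_pow_left a3 _
      _ = 2 ^ (128 * D ^ 5) * (2 ^ N.size) ^ (128 * D ^ 4) := by
          rw [← pow_mul, ← pow_mul, ← pow_add]; congr 1; ring
      _ ≤ N ^ (128 * D ^ 5) * (N ^ 2) ^ (128 * D ^ 4) :=
          Nat.mul_le_mul (pow2 hN _) (Nat.pow_le_pow_left (two_pow_size_le hN) _)
      _ = _ := by rw [← pow_mul, ← pow_add]; congr 1; ring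
  calc (2 * D + 1) * (N + 1) * (20 * D ^ 3 + 4) ^ (16 * D ^ 3 * (D + N.size))
      ≤ N ^ (D + 1) * N ^ 2 * N ^ (128 * D ^ 5 + 256 * D ^ 4) :=
        Nat.mul_le_mul (Nat.mul_le_mul a1 a2) a4
    _ = N ^ (D + 1 + 2 + (128 * D ^ 5 + 256 * D ^ 4)) := by rw [← pow_add, ← pow_add]
    _ ≤ _ := by
        apply Nat.pow_le_pow_right (by omega)
        have b1 : D ^ 5 ≤ (D + 1) ^ 5 := Nat.pow_le_pow_left (by omega) 5
        have b2 : D ^ 4 ≤ (D + 1) ^ 5 :=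
          (Nat.pow_le_pow_left (by omega) 4).trans (Nat.pow_le_pow_right (by omega) (by norm_num))
        have b3 : D + 1 ≤ (D + 1) ^ 5 := Nat.le_self_pow (by norm_num) _
        omega

theorem bound_wdh {N D : ℕ} (hN : 2 ≤ N) : wdh D ≤ N ^ (8 * D + 7) := by
  have hD2 : D < 2 ^ D := Nat.lt_two_pow_self
  have h1 : D ^ 3 ≤ (2 ^ D) ^ 3 := Nat.pow_le_pow_left hD2.le 3
  have h2 : 1 ≤ (2 ^ D) ^ 3 := Nat.one_le_pow _ _ (by positivity)
  have h3 : 8 * D ^ 3 + 1 ≤ 2 ^ 4 * (2 ^ D) ^ 3 := by omega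
  have h4 : wdh D ≤ 2 ^ 3 * 2 ^ D * (2 ^ D) ^ 3 * (2 ^ 4 * (2 ^ D) ^ 3) * 2 ^ D := by
    unfold wdh
    refine Nat.mul_le_mul (Nat.mul_le_mul (Nat.mul_le_mul (Nat.mul_le_mul (by norm_num) le_rfl) h1)
      h3) hD2
  refine h4.trans (le_trans (le_of_eq ?_) (pow2 hN _))
  rw [← pow_mul, ← pow_add, ← pow_add, ← pow_add, ← pow_add, ← pow_add]
  congr 1
  ring

end Rgrow

theorem rgrow_thm : S_RGROW := by
  intro D B hD hBI hB
  obtain ⟨z, hz⟩ := hBI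
  have hz2 : (2 : ℤ) ≤ z := by rw [hz] at hB; exact_mod_cast hB
  obtain ⟨N, rfl⟩ : ∃ N : ℕ, z = N := ⟨z.toNat, by omega⟩
  have hN : 2 ≤ N := by omega
  have hBN : B = (N : ℚ) := by rw [hz]; push_cast; rfl
  have hnum : B.num.natAbs = N := by rw [hBN]; simp
  obtain ⟨X, hX⟩ : ∃ X : ℕ,
    X = (2 * D + 1) * (N + 1) * (20 * D ^ 3 + 4) ^ (16 * D ^ 3 * (D + N.size)) := ⟨_, rfl⟩
  obtain ⟨E, hE⟩ : ∃ E : ℕ, E = 400 * (D + 1) ^ 5 := ⟨_, rfl⟩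
  have hXE : X ≤ N ^ E := by rw [hX, hE]; exact Rgrow.bound_X hN hD
  have hX1 : 1 ≤ X := by
    rw [hX]
    exact Nat.mul_pos (Nat.mul_pos (by omega) (by omega)) (Nat.pow_pos (Nat.succ_pos _))
  have hD2 : D < 2 ^ D := Nat.lt_two_pow_self
  have hDN : D ≤ N ^ D := hD2.le.trans (Rgrow.pow2 hN _)
  have hNpos : ∀ a : ℕ, 1 ≤ N ^ a := fun a => Nat.one_le_pow _ _ (by omega)
  have c1 : D * D * X + 2 ≤ N ^ (2 * D + E + 1) := by
    have h1 : D * D * X ≤ N ^ (2 * D + E) := by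
      calc D * D * X ≤ N ^ D * N ^ D * N ^ E := Nat.mul_le_mul (Nat.mul_le_mul hDN hDN) hXE
        _ = _ := by rw [← pow_add, ← pow_add]; congr 1; ring
    have h2 : 2 ≤ N ^ (2 * D + E) :=
      hN.trans (Nat.le_self_pow (by omega) _)
    rw [pow_succ N]
    calc D * D * X + 2 ≤ N ^ (2 * D + E) + N ^ (2 * D + E) := Nat.add_le_add h1 h2
      _ = N ^ (2 * D + E) * 2 := by ring
      _ ≤ _ := Nat.mul_le_mul le_rfl hN
  have c2 : (D * D * X + 2) ^ (4 * D + 4) ≤ N ^ ((2 * D + E + 1) * (4 * D + 4)) := by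
    rw [pow_mul]
    exact Nat.pow_le_pow_left c1 _
  have c3 : D * ((D * D * X + 2) ^ (4 * D + 4) * X) ≤
      N ^ (D + (2 * D + E + 1) * (4 * D + 4) + E) := by
    calc D * ((D * D * X + 2) ^ (4 * D + 4) * X)
        ≤ N ^ D * (N ^ ((2 * D + E + 1) * (4 * D + 4)) * N ^ E) :=
          Nat.mul_le_mul hDN (Nat.mul_le_mul c2 hXE)
      _ = _ := by rw [← pow_add, ← pow_add]; congr 1; ring
  have b1 : D + 1 ≤ (D + 1) ^ 5 := Nat.le_self_pow (by norm_num) _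
  have b2 : (D + 1) ^ 5 ≤ (D + 1) ^ 8 := Nat.pow_le_pow_right (by omega) (by norm_num)
  have e1 : (2 * D + E + 1) * (4 * D + 4) ≤ 1000 * (D + 1) ^ 8 * (4 * D + 4) :=
    Nat.mul_le_mul (by omega) le_rfl
  have c4 : D * ((D * D * X + 2) ^ (4 * D + 4) * X) + 2 + wdh D ≤ N ^ crD D := by
    obtain ⟨G, hG⟩ : ∃ G : ℕ, G = D + (2 * D + E + 1) * (4 * D + 4) + E + (8 * D + 7) := ⟨_, rfl⟩
    have g1 : D * ((D * D * X + 2) ^ (4 * D + 4) * X) ≤ N ^ G :=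
      c3.trans (Nat.pow_le_pow_right (by omega) (by omega))
    have g2 : 2 ≤ N ^ G := hN.trans (Nat.le_self_pow (by omega) _)
    have g3 : wdh D ≤ N ^ G :=
      (Rgrow.bound_wdh hN).trans (Nat.pow_le_pow_right (by omega) (by omega))
    have g4 : N ^ (G + 2) ≤ N ^ crD D := by
      apply Nat.pow_le_pow_right (by omega)
      unfold crD
      omega
    refine le_trans ?_ g4
    rw [pow_add N G 2]
    have g5 : 4 ≤ N ^ 2 := by nlinarith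
    calc D * ((D * D * X + 2) ^ (4 * D + 4) * X) + 2 + wdh D ≤ N ^ G + N ^ G + N ^ G :=
          Nat.add_le_add (Nat.add_le_add g1 g2) g3
      _ ≤ N ^ G * 4 := by omega
      _ ≤ _ := Nat.mul_le_mul le_rfl g5
  have c5 : (D * D * X + 2) ^ (4 * D + 4) ≤ N ^ crD D := by
    refine le_trans ?_ c4
    have h1 : (D * D * X + 2) ^ (4 * D + 4) ≤ D * ((D * D * X + 2) ^ (4 * D + 4) * X) := by
      calc (D * D * X + 2) ^ (4 * D + 4) = 1 * ((D * D * X + 2) ^ (4 * D + 4) * 1) := by ring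
        _ ≤ _ := Nat.mul_le_mul hD (Nat.mul_le_mul le_rfl hX1)
    omega
  refine ⟨(X : ℚ), by exact_mod_cast hX1, ?_, ?_, ?_⟩
  · rw [hnum]
    unfold rT
    rw [hnum, hX]
  · rw [hBN]
    exact_mod_cast c5
  · rw [hBN]
    exact_mod_cast c4

end Pool.HMS
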