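import Pool.Agent.H91.HMS.RLib

/-!
# HMS, module RTIME: the number of steps is large enough
-/

set_option autoImplicit false

namespace Pool.HMS

open Finset

theorem rtime_thm : S_RTIME := by
  intro D B hD hBI hB
  obtain ⟨z, hz⟩ := hBI
  have hz2 : (2 : ℤ) ≤ z := by rw [hz] at hB; exact_mod_cast hB
  obtain ⟨N, rfl⟩ : ∃ N : ℕ, z = N := ⟨z.toNat, by omega⟩
  have hN : 2 ≤ N := by omega
  have hBN : B = (N : ℚ) := by rw [hz]; push_cast; rfl
  have hnum : B.num.natAbs = N := by rw [hBN]; simp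
  have hDq : (1 : ℚ) ≤ D := by exact_mod_cast hD
  have hDpos : (0 : ℚ) < D := by linarith
  have h1 : (2 : ℚ) ≤ (1 + 1 / (16 * (D : ℚ) ^ 2)) ^ (16 * D ^ 2) := by
    have hb := one_add_mul_le_pow (a := 1 / (16 * (D : ℚ) ^ 2))
      (le_trans (by norm_num) (by positivity : (0 : ℚ) ≤ 1 / (16 * (D : ℚ) ^ 2))) (16 * D ^ 2)
    refine le_trans (le_of_eq ?_) hb
    push_cast
    field_simp
    norm_num
  have e : rT D B = 16 * D ^ 2 * ((D + N.size) * D) := by
    unfold rT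
    rw [hnum]
    ring
  rw [e, pow_mul]
  have h2 : (2 : ℚ) ^ ((D + N.size) * D) ≤
      ((1 + 1 / (16 * (D : ℚ) ^ 2)) ^ (16 * D ^ 2)) ^ ((D + N.size) * D) :=
    pow_le_pow_left₀ (by norm_num) h1 _
  have hB0 : 0 < B := by linarith
  have h3 : (1 : ℚ) < 2 ^ (D + N.size) * (1 / (2 * D * B)) := by
    have a1 : 2 * D ≤ 2 ^ D := by
      have : D - 1 < 2 ^ (D - 1) := Nat.lt_two_pow_self
      have e1 : 2 ^ D = 2 ^ (D - 1) * 2 := by rw [← pow_succ]; congr 1; omega
      omega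
    have a2 : N < 2 ^ N.size := Nat.lt_size_self N
    have a3 : 2 * D * N < 2 ^ (D + N.size) := by
      rw [pow_add]
      calc 2 * D * N < 2 * D * 2 ^ N.size := Nat.mul_lt_mul_of_pos_left a2 (by omega)
        _ ≤ _ := Nat.mul_le_mul a1 le_rfl
    have a4 : (2 * (D : ℚ) * B) < 2 ^ (D + N.size) := by rw [hBN]; exact_mod_cast a3
    rw [mul_one_div, one_lt_div (by positivity)]
    exact a4
  have h4 : (1 : ℚ) < (2 ^ (D + N.size) * (1 / (2 * D * B))) ^ D := one_lt_pow₀ h3 (by omega)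
  rw [mul_pow, ← pow_mul] at h4
  refine h4.trans_le ?_
  exact mul_le_mul_of_nonneg_right h2 (by positivity)

end Pool.HMS
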